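import Pool.Agent.H7.LP.Targets

/-!
# Row RTP: a topology in which hits of labels are clopen
-/

set_option autoImplicit false

open Set Filter Topology

namespace Pool.Agent.H25.LP

open Pool.Agent.H7.LP

theorem pf_RTP (h1 : Pool.Agent.H93.CP.T_TPS) : T_RTP := by
  intro G X _ _ _ _ _ _ M _ Y R g
  obtain ⟨t, htB, htP⟩ := StandardBorelSpace.polish (α := X)
  obtain ⟨S, hS⟩ : ∃ S : ℕ → ℕ → Set G → Set X, S = fun i n U =>
    {x | (lab R (tr (g i) (Y.C x)) n ∩ U).Nonempty} := ⟨_, rfl⟩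
  have hmeas : ∀ (i n : ℕ) (U : Set G), IsOpen U → MeasurableSet (S i n U) := by
    intro i n U hU
    obtain ⟨V, hV⟩ : ∃ V : Set G, V = {b | ∃ r ∈ R, b * (g i)⁻¹ * r⁻¹ ∈ U} := ⟨_, rfl⟩
    have hVo : IsOpen V := by
      have e1 : V = ⋃ r ∈ R, (fun b : G => b * (g i)⁻¹ * r⁻¹) ⁻¹' U := by
        rw [hV]
        ext b
        simp
      rw [e1]
      refine isOpen_iUnion fun r => isOpen_iUnion fun _ => ?_
      exact hU.preimage (by fun_prop)
    have e2 : S i n U = {x : X | (Y.C x n ∩ V).Nonempty} := by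
      rw [hS]
      ext x
      simp only [mem_ofPred_eq]
      unfold lab
      rw [closure_inter_open_nonempty_iff hU]
      constructor
      · rintro ⟨a, ⟨r, hr, har⟩, haU⟩
        refine ⟨a * r * g i, har, ?_⟩
        rw [hV]
        refine ⟨r, hr, ?_⟩
        rw [mul_inv_cancel_right, mul_inv_cancel_right]
        exact haU
      · rintro ⟨b, hb, hbV⟩
        rw [hV] at hbV
        obtain ⟨r, hr, hbr⟩ := hbV
        refine ⟨b * (g i)⁻¹ * r⁻¹, ⟨r, hr, ?_⟩, hbr⟩
        unfold tr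
        simp only [mem_ofPred_eq]
        rw [inv_mul_cancel_right, inv_mul_cancel_right]
        exact hb
    rw [e2]
    exact Y.meas n V hVo
  obtain ⟨A, hA⟩ : ∃ A : Set (Set X), A =
    {s | ∃ (i n : ℕ), ∃ U ∈ TopologicalSpace.countableBasis G, s = S i n U ∨ s = (S i n U)ᶜ} :=
    ⟨_, rfl⟩
  have hAc : A.Countable := by
    have e1 : A = ⋃ i : ℕ, ⋃ n : ℕ, ⋃ U ∈ TopologicalSpace.countableBasis G,
        ({S i n U, (S i n U)ᶜ} : Set (Set X)) := by
      rw [hA]
      ext s
      simp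
    rw [e1]
    refine countable_iUnion fun i => countable_iUnion fun n => ?_
    refine (TopologicalSpace.countable_countableBasis G).biUnion fun U _ => ?_
    exact (countable_singleton _).insert _
  have hAm : ∀ s ∈ A, MeasurableSet s := by
    intro s hs
    rw [hA] at hs
    obtain ⟨i, n, U, hU, hs | hs⟩ := hs
    · rw [hs]
      exact hmeas i n U (TopologicalSpace.isOpen_of_mem_countableBasis hU)
    · rw [hs]
      exact (hmeas i n U (TopologicalSpace.isOpen_of_mem_countableBasis hU)).compl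
  obtain ⟨t', -, hP, hB, hO⟩ := h1 X t htP htB A hAc hAm
  refine ⟨t', TopologicalSpace.countableBasis G, hP, hB,
    TopologicalSpace.isBasis_countableBasis G, ?_⟩
  intro i n U hU
  have e1 : {x | (lab R (tr (g i) (Y.C x)) n ∩ U).Nonempty} = S i n U := by rw [hS]
  rw [e1]
  constructor
  · rw [← @isOpen_compl_iff X (S i n U) t']
    refine hO _ ?_
    rw [hA]
    exact ⟨i, n, U, hU, Or.inr rfl⟩
  · refine hO _ ?_
    rw [hA]
    exact ⟨i, n, U, hU, Or.inl rfl⟩

end Pool.Agent.H25.LP
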